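import Pool.Agent.V7H52.AG.A8

/-!
# A growth gap for Anosov diffeomorphisms
-/

set_option autoImplicit false

open scoped Manifold ContDiff Topology
open Set Filter

namespace Pool.Agent.Results.MP_610fe3_an.GrowthGapH52

open Pool.Agent.H721R2 Pool.Agent.H789R2.AN

/-- The local unstable set of `x` of size `r` for `g`: all `y` with `d(g⁻ᵏ x, g⁻ᵏ y) ≤ r` for all
`k ≥ 0`. For `g⁻¹` in place of `g` it is the local stable set of `g`. -/
def localUnstable {M : Type*} [MetricSpace M] (g : M ≃ₜ M) (r : ℝ) (x : M) : Set M :=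
  {y | ∀ k : ℕ, dist (g.symm^[k] x) (g.symm^[k] y) ≤ r}

/-- The growth function of the local unstable sets: the supremum of
`∑_{y ∈ F} exp (φ(y) + φ(g y) + … + φ(gⁿ⁻¹ y))` over the finite subsets `F` of the local unstable
set of `x` of size `r` such that any two points of `F` have distance more than `s` at one of the
times `0, 1, …, n`. -/
noncomputable def growth {M : Type*} [MetricSpace M] (g : M ≃ₜ M) (φ : M → ℝ) (r s : ℝ) (n : ℕ)
    (x : M) : ℝ :=
  sSup {a | ∃ F : Finset M, (F : Set M) ⊆ localUnstable g r x ∧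
    (∀ y ∈ F, ∀ z ∈ F, y ≠ z → ∃ k ≤ n, s < dist (g^[k] y) (g^[k] z)) ∧
    ∑ y ∈ F, Real.exp (birkhoffSum g φ n y) = a}

/-- Potentials: continuous functions with the Bowen property. With
`S_n φ (x) = φ (x) + φ (g x) + … + φ (gⁿ⁻¹ x)`, there are `e > 0` and `V` such that
`|S_n φ (x) - S_n φ (y)| ≤ V` whenever `d(gᵏ x, gᵏ y) ≤ e` for all `k < n`.
(All Hölder functions have this property when `g` is Anosov.) -/
def IsPotential {M : Type*} [MetricSpace M] (g : M ≃ₜ M) (φ : M → ℝ) : Prop :=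
  Continuous φ ∧ ∃ e > 0, ∃ V : ℝ, ∀ (n : ℕ) (x y : M), (∀ k < n, dist (g^[k] x) (g^[k] y) ≤ e) →
    |birkhoffSum g φ n x - birkhoffSum g φ n y| ≤ V

/-- `φ` and `ψ` are potentials with the same sums over all periodic orbits of `f`. -/
structure Pair {M : Type*} [MetricSpace M] (f : M ≃ₜ M) (φ ψ : M → ℝ) : Prop where
  pot : IsPotential f φ
  pot' : IsPotential f ψ
  sums : ∀ (x : M) (T : ℕ), 1 ≤ T → f^[T] x = x → birkhoffSum f φ T x = birkhoffSum f ψ T x

/-- `r` and `s` are positive scales not larger than `ε₀`. -/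
structure Scales (ε₀ r s : ℝ) : Prop where
  r_pos : 0 < r
  r_le : r ≤ ε₀
  s_pos : 0 < s
  s_le : s ≤ ε₀

/-- `G n x` is, uniformly in `x`, of the order of `exp (n P)`. -/
def PureGrowth {M : Type*} (G : ℕ → M → ℝ) (P : ℝ) : Prop :=
  ∃ C > 0, ∀ (n : ℕ) (x : M), Real.exp (n * P) ≤ C * G n x ∧ G n x ≤ C * Real.exp (n * P)

/-- The maximal ratio `sup_{x, y} G n x / G n y` is at most `D`. -/
def RatioLe {M : Type*} (G : ℕ → M → ℝ) (n : ℕ) (D : ℝ) : Prop := ∀ x y, G n x ≤ D * G n y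

/-- The maximal ratio does not grow exponentially: for every `κ > 0` it is at most `κ exp (κ n)`
for some `n`. -/
def SubExp {M : Type*} (G : ℕ → M → ℝ) : Prop :=
  ∀ κ > 0, ∃ n : ℕ, RatioLe G n (κ * Real.exp (κ * n))

/-- `U n p` is of the order of `exp (n α)`, `S n q` is of the order of `exp (n β)`, and both `U n q`
and `S n p` are at least a constant times the convolution
`∑_{j ≤ n} exp (j α) exp ((n - j) β)`. -/
def Gap {M : Type*} (U S : ℕ → M → ℝ) (p q : M) (α β : ℝ) : Prop :=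
  ∃ C > 0, ∀ n : ℕ,
    (Real.exp (n * α) ≤ C * U n p ∧ U n p ≤ C * Real.exp (n * α)) ∧
    (Real.exp (n * β) ≤ C * S n q ∧ S n q ≤ C * Real.exp (n * β)) ∧
    ∑ j ∈ Finset.range (n + 1), Real.exp (j * α + ((n : ℝ) - j) * β) ≤ C * U n q ∧
    ∑ j ∈ Finset.range (n + 1), Real.exp (j * α + ((n : ℝ) - j) * β) ≤ C * S n p

lemma growth_eq {M : Type*} [MetricSpace M] (g : M ≃ₜ M) (φ : M → ℝ) (r s : ℝ) (n : ℕ) (x : M) :
    growth g φ r s n x = Pool.Agent.N520.T.Lam g φ s n (Pool.Agent.N520.T.Wu g r x) := rfl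

lemma growth_pos {M : Type*} [MetricSpace M] [CompactSpace M] (g : M ≃ₜ M) {φ : M → ℝ}
    (hφ : Continuous φ) {r s : ℝ} (hr : 0 < r) (hs : 0 < s) (n : ℕ) (x : M) :
    0 < growth g φ r s n x := by
  obtain ⟨B, hB⟩ := (isCompact_univ (X := M)).exists_bound_of_continuousOn hφ.continuousOn
  rw [growth_eq]
  exact Pool.Agent.N520.T.lam_pos (fun x => hB x trivial) hs (x := x)
    (Pool.Agent.Y330.G.sr_refl g.symm hr.le x)

/-- **A growth gap for Anosov diffeomorphisms.** Let `f` be a `C¹` Anosov diffeomorphism of a closed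
connected manifold `M`, with any distance that defines the topology. There is `ε₀ > 0` such that the
following holds, with `U n x = growth f φ r s n x` (unstable growth) and
`S n x = growth f⁻¹ ψ r s n x` (stable growth), for scales `r, s ≤ ε₀` and for potentials `φ`, `ψ`
with the same sums over periodic orbits.

(A) If `f` is transitive, then there is `P = P(φ, ψ)` such that `U` and `S` are of the order of
`exp (n P)`, uniformly on `M`.

(B) If `f` is not transitive, there are periodic points `p`, `q`, which do not depend on the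
scales and on the potentials, and `α = α(φ, ψ)`, `β = β(φ, ψ)` such that `U n p ≍ exp (n α)`,
`S n q ≍ exp (n β)`, and both `U n q` and `S n p` are `≥ c ∑_{j ≤ n} exp (j α + (n - j) β)`. Hence
the product of the maximal ratios of `U` and of `S` is `≥ c (n + 1)²` for all `n`. Moreover, for
every `Λ` there is a potential `φ` with `U n q ≥ c exp (Λ n) U n p`, and there is a potential
`φ = ψ` with `S n p ≥ c exp (Λ n) S n q`.

(C) The following are equivalent:
1. `f` is transitive;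
2. the maximal ratios of `U` and of `S` are bounded, for all pairs of potentials and all scales;
3. for some pair and some scales, the product of the maximal ratios of `U` and of `S` is not
   `≥ κ n²` for any `κ > 0`;
4. for some pair and some scales, neither maximal ratio grows exponentially, and one of
   them is not `≥ κ n` for any `κ > 0`;
5. for each potential `φ` the maximal ratio of the unstable growth does not grow exponentially, for
   some scales;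
6. for each potential `φ` the maximal ratio of the stable growth does not grow exponentially, for
   some scales. -/
theorem result (E : Type*) [NormedAddCommGroup E] [NormedSpace ℝ E] [FiniteDimensional ℝ E]
    (M : Type*) [MetricSpace M] [CompactSpace M] [ConnectedSpace M]
    [ChartedSpace E M] [IsManifold 𝓘(ℝ, E) ∞ M] (f : Diffeomorph 𝓘(ℝ, E) 𝓘(ℝ, E) M M 1)
    (Es Eu : ∀ x : M, Submodule ℝ (TangentSpace 𝓘(ℝ, E) x)) (hf : IsAnosov f Es Eu) :
    ∃ ε₀ > 0,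
    (TopTransitive f → ∀ φ ψ : M → ℝ, Pair f.toHomeomorph φ ψ → ∃ P, ∀ r s : ℝ, Scales ε₀ r s →
      PureGrowth (growth f.toHomeomorph φ r s) P ∧
        PureGrowth (growth f.toHomeomorph.symm ψ r s) P) ∧
    (¬ TopTransitive f → ∃ p q : M, (∃ T : ℕ, 1 ≤ T ∧ f^[T] p = p) ∧
      (∃ T : ℕ, 1 ≤ T ∧ f^[T] q = q) ∧
      (∀ φ ψ : M → ℝ, Pair f.toHomeomorph φ ψ → ∃ α β, ∀ r s : ℝ, Scales ε₀ r s →
        Gap (growth f.toHomeomorph φ r s) (growth f.toHomeomorph.symm ψ r s) p q α β ∧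
        ∃ c > 0, ∀ (n : ℕ) (D D' : ℝ), RatioLe (growth f.toHomeomorph φ r s) n D →
          RatioLe (growth f.toHomeomorph.symm ψ r s) n D' → c * ((n : ℝ) + 1) ^ 2 ≤ D * D') ∧
      ∀ Λ : ℝ,
        (∃ φ, IsPotential f.toHomeomorph φ ∧ ∀ r s : ℝ, Scales ε₀ r s → ∃ c > 0, ∀ n : ℕ,
          c * Real.exp (Λ * n) * growth f.toHomeomorph φ r s n p ≤
            growth f.toHomeomorph φ r s n q) ∧
        ∃ φ, IsPotential f.toHomeomorph φ ∧ ∀ r s : ℝ, Scales ε₀ r s → ∃ c > 0, ∀ n : ℕ,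
          c * Real.exp (Λ * n) * growth f.toHomeomorph.symm φ r s n q ≤
            growth f.toHomeomorph.symm φ r s n p) ∧
    List.TFAE [TopTransitive f,
      ∀ φ ψ : M → ℝ, Pair f.toHomeomorph φ ψ → ∀ r s : ℝ, Scales ε₀ r s →
        ∃ C, ∀ n, RatioLe (growth f.toHomeomorph φ r s) n C ∧
          RatioLe (growth f.toHomeomorph.symm ψ r s) n C,
      ∃ (φ ψ : M → ℝ) (r s : ℝ), Pair f.toHomeomorph φ ψ ∧ Scales ε₀ r s ∧
        ∀ κ > 0, ∃ (n : ℕ) (D D' : ℝ), 1 ≤ n ∧ D * D' ≤ κ * (n : ℝ) ^ 2 ∧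
          RatioLe (growth f.toHomeomorph φ r s) n D ∧
          RatioLe (growth f.toHomeomorph.symm ψ r s) n D',
      ∃ (φ ψ : M → ℝ) (r s : ℝ), Pair f.toHomeomorph φ ψ ∧ Scales ε₀ r s ∧
        SubExp (growth f.toHomeomorph φ r s) ∧ SubExp (growth f.toHomeomorph.symm ψ r s) ∧
        ∀ κ > 0, ∃ n : ℕ, 1 ≤ n ∧ (RatioLe (growth f.toHomeomorph φ r s) n (κ * n) ∨
          RatioLe (growth f.toHomeomorph.symm ψ r s) n (κ * n)),
      ∀ φ, IsPotential f.toHomeomorph φ → ∃ r s : ℝ, Scales ε₀ r s ∧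
        SubExp (growth f.toHomeomorph φ r s),
      ∀ φ, IsPotential f.toHomeomorph φ → ∃ r s : ℝ, Scales ε₀ r s ∧
        SubExp (growth f.toHomeomorph.symm φ r s)] := by
  obtain ⟨ε₀, hε₀, hT, hN⟩ := Pool.Agent.V7H52.AG.main f Es Eu hf
  set F : M ≃ₜ M := f.toHomeomorph with hF
  have hzero : IsPotential F (fun _ => 0) := Pool.Agent.N520.T.pot_zero F
  have hA : TopTransitive f → ∀ φ ψ : M → ℝ, Pair F φ ψ → ∃ P, ∀ r s : ℝ, Scales ε₀ r s →
      PureGrowth (growth F φ r s) P ∧ PureGrowth (growth F.symm ψ r s) P := by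
    intro ht φ ψ hd
    obtain ⟨P, hP⟩ := hT ht φ ψ hd.pot hd.pot' hd.sums
    refine ⟨P, fun r s hs => ?_⟩
    obtain ⟨C, hC, h1⟩ := hP r s hs.r_pos hs.r_le hs.s_pos hs.s_le
    exact ⟨⟨C, hC, fun n x => (h1 n x).1⟩, ⟨C, hC, fun n x => (h1 n x).2⟩⟩
  have hpos : ∀ {r s : ℝ} {φ ψ : M → ℝ}, Pair F φ ψ → Scales ε₀ r s → ∀ n x,
      0 < growth F φ r s n x :=
    fun hd hs n x => growth_pos F hd.pot.1 hs.r_pos hs.s_pos n x
  have hpos' : ∀ {r s : ℝ} {φ ψ : M → ℝ}, Pair F φ ψ → Scales ε₀ r s → ∀ n x,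
      0 < growth F.symm ψ r s n x :=
    fun hd hs n x => growth_pos F.symm hd.pot'.1 hs.r_pos hs.s_pos n x
  -- the data of a diffeomorphism that is not transitive
  have hB : ¬ TopTransitive f → ∃ p q : M, (∃ T : ℕ, 1 ≤ T ∧ f^[T] p = p) ∧
      (∃ T : ℕ, 1 ≤ T ∧ f^[T] q = q) ∧
      (∀ φ ψ : M → ℝ, Pair F φ ψ → ∃ α β, ∀ r s : ℝ, Scales ε₀ r s →
        Gap (growth F φ r s) (growth F.symm ψ r s) p q α β) ∧
      ∀ Λ : ℝ,
        (∃ φ, IsPotential F φ ∧ ∀ r s : ℝ, Scales ε₀ r s → ∃ c > 0, ∀ n : ℕ,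
          c * Real.exp (Λ * n) * growth F φ r s n p ≤ growth F φ r s n q) ∧
        ∃ φ, IsPotential F φ ∧ ∀ r s : ℝ, Scales ε₀ r s → ∃ c > 0, ∀ n : ℕ,
          c * Real.exp (Λ * n) * growth F.symm φ r s n q ≤ growth F.symm φ r s n p := by
    intro hnt
    obtain ⟨p, q, hp, hq, ⟨χ, hχ, hχp, hχq⟩, hgap⟩ := hN hnt
    have hG : ∀ φ ψ : M → ℝ, Pair F φ ψ → ∃ α β, ∀ r s : ℝ, Scales ε₀ r s →
        Gap (growth F φ r s) (growth F.symm ψ r s) p q α β := by
      intro φ ψ hd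
      obtain ⟨α, β, h1⟩ := hgap φ ψ hd.pot hd.pot' hd.sums
      exact ⟨α, β, fun r s hs => h1 r s hs.r_pos hs.r_le hs.s_pos hs.s_le⟩
    refine ⟨p, q, hp, hq, hG, fun Λ => ?_⟩
    have hd : ∀ t : ℝ, Pair F (fun x => t * χ x) (fun x => t * χ x) := fun t =>
      ⟨hχ t, hχ t, fun _ _ _ _ => rfl⟩
    have hd0 : Pair F (fun _ => 0) (fun _ => 0) := ⟨hzero, hzero, fun _ _ _ _ => rfl⟩
    obtain ⟨α₀, β₀, h00⟩ := hG _ _ hd0
    have hpp : ∀ {r : ℝ}, 0 < r → ∀ x, x ∈ Pool.Agent.N520.T.Wu F r x := fun hr x =>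
      Pool.Agent.Y330.G.sr_refl F.symm hr.le x
    have hpp' : ∀ {r : ℝ}, 0 < r → ∀ x, x ∈ Pool.Agent.N520.T.Wu F.symm r x := fun hr x =>
      Pool.Agent.Y330.G.sr_refl F hr.le x
    have sp : ∀ {r : ℝ}, r ≤ ε₀ → ∀ (t : ℝ) (n : ℕ), ∀ y ∈ Pool.Agent.N520.T.Wu F r p,
        birkhoffSum F (fun x => t * χ x) n y = 0 := by
      intro r hr t n y hy
      refine Finset.sum_eq_zero fun k _ => ?_
      have h1 : χ (F^[k] y) = 0 := hχp r hr y hy k
      simp only [h1, mul_zero]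
    have sq : ∀ {r : ℝ}, r ≤ ε₀ → ∀ (t : ℝ) (n : ℕ), ∀ y ∈ Pool.Agent.N520.T.Wu F.symm r q,
        birkhoffSum F.symm (fun x => t * χ x) n y = t * n := by
      intro r hr t n y hy
      unfold birkhoffSum
      rw [Finset.sum_congr rfl (g := fun _ => t) (fun k _ => by
        have h1 : χ (F.symm^[k] y) = 1 := hχq r hr y hy k
        simp only [h1, mul_one]), Finset.sum_const, Finset.card_range, nsmul_eq_mul, mul_comm]
    have hbd : ∀ t : ℝ, ∃ B, ∀ x, |t * χ x| ≤ B := fun t =>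
      Pool.Agent.V7H52.AG.pot_bdd (hχ t)
    have hsc : Scales ε₀ ε₀ ε₀ := ⟨hε₀, le_rfl, hε₀, le_rfl⟩
    -- the exponents
    have key : ∀ (t α β : ℝ), (∀ r s : ℝ, Scales ε₀ r s →
        Gap (growth F (fun x => t * χ x) r s) (growth F.symm (fun x => t * χ x) r s) p q α β) →
        0 ≤ α ∧ α ≤ α₀ ∧ t ≤ β ∧ β ≤ β₀ + t := by
      intro t α β hgap
      obtain ⟨C, hC, h1⟩ := hgap ε₀ ε₀ hsc
      obtain ⟨C₀, hC₀, h0⟩ := h00 ε₀ ε₀ hsc
      obtain ⟨B, hB⟩ := hbd t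
      refine ⟨?_, ?_, ?_, ?_⟩
      · refine Pool.Agent.V7H52.AG.exp_cmp hC fun n => ?_
        have h2 := Pool.Agent.V7H52.AG.lam_point (g := F) hB hε₀ (n := n) (hpp hε₀ p)
        rw [sp le_rfl t n p (hpp hε₀ p), Real.exp_zero] at h2
        rw [mul_zero, Real.exp_zero]
        exact h2.trans (h1 n).1.2
      · refine Pool.Agent.V7H52.AG.exp_cmp (C := C * C₀) (by positivity) fun n => ?_
        have h2 := Pool.Agent.V7H52.AG.lam_const (g := F) hε₀ (n := n)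
          (L := Pool.Agent.N520.T.Wu F ε₀ p) (sp le_rfl t n)
        rw [Real.exp_zero, one_mul] at h2
        calc Real.exp (n * α) ≤ C * growth F (fun x => t * χ x) ε₀ ε₀ n p := (h1 n).1.1
          _ ≤ C * growth F (fun _ => 0) ε₀ ε₀ n p := mul_le_mul_of_nonneg_left h2 hC.le
          _ ≤ C * (C₀ * Real.exp (n * α₀)) := mul_le_mul_of_nonneg_left (h0 n).1.2 hC.le
          _ = _ := by ring
      · refine Pool.Agent.V7H52.AG.exp_cmp hC fun n => ?_
        have h2 := Pool.Agent.V7H52.AG.lam_point (g := F.symm) hB hε₀ (n := n) (hpp' hε₀ q)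
        rw [sq le_rfl t n q (hpp' hε₀ q), mul_comm] at h2
        exact h2.trans (h1 n).2.1.2
      · refine Pool.Agent.V7H52.AG.exp_cmp (C := C * C₀) (by positivity) fun n => ?_
        have h2 := Pool.Agent.V7H52.AG.lam_const (g := F.symm) hε₀ (n := n)
          (L := Pool.Agent.N520.T.Wu F.symm ε₀ q) (sq le_rfl t n)
        calc Real.exp (n * β) ≤ C * growth F.symm (fun x => t * χ x) ε₀ ε₀ n q := (h1 n).2.1.1
          _ ≤ C * (Real.exp (t * n) * growth F.symm (fun _ => 0) ε₀ ε₀ n q) :=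
            mul_le_mul_of_nonneg_left h2 hC.le
          _ ≤ C * (Real.exp (t * n) * (C₀ * Real.exp (n * β₀))) := by
            have := (h0 n).2.1.2
            gcongr
          _ = C * C₀ * (Real.exp (t * n) * Real.exp (n * β₀)) := by ring
          _ = _ := by
            rw [← Real.exp_add]
            congr 2
            ring
    constructor
    · refine ⟨_, hχ (α₀ + Λ), fun r s hs => ?_⟩
      obtain ⟨α, β, hgap'⟩ := hG _ _ (hd (α₀ + Λ))
      obtain ⟨k1, k2, k3, k4⟩ := key _ α β hgap'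
      obtain ⟨C, hC, h1⟩ := hgap' r s hs
      refine ⟨1 / C ^ 2, by positivity, fun n => ?_⟩
      obtain ⟨⟨a1, a2⟩, -, a3, -⟩ := h1 n
      have a4 := Pool.Agent.V7H52.AG.Z_left β α n
      rw [Pool.Agent.V7H52.AG.Z_symm] at a4
      have a5 : Real.exp (n * β) ≤ C * growth F (fun x => (α₀ + Λ) * χ x) r s n q := a4.trans a3
      have a6 : Real.exp (Λ * n) * Real.exp (n * α) ≤ Real.exp (n * β) := by
        rw [← Real.exp_add]
        apply Real.exp_le_exp.mpr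
        have : (0 : ℝ) ≤ n := Nat.cast_nonneg n
        nlinarith
      calc 1 / C ^ 2 * Real.exp (Λ * n) * growth F (fun x => (α₀ + Λ) * χ x) r s n p
          ≤ 1 / C ^ 2 * Real.exp (Λ * n) * (C * Real.exp (n * α)) := by gcongr
        _ = 1 / C * (Real.exp (Λ * n) * Real.exp (n * α)) := by field_simp
        _ ≤ 1 / C * Real.exp (n * β) := by gcongr
        _ ≤ 1 / C * (C * growth F (fun x => (α₀ + Λ) * χ x) r s n q) := by gcongr
        _ = _ := by field_simp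
    · refine ⟨_, hχ (-(β₀ + Λ)), fun r s hs => ?_⟩
      obtain ⟨α, β, hgap'⟩ := hG _ _ (hd (-(β₀ + Λ)))
      obtain ⟨k1, k2, k3, k4⟩ := key _ α β hgap'
      obtain ⟨C, hC, h1⟩ := hgap' r s hs
      refine ⟨1 / C ^ 2, by positivity, fun n => ?_⟩
      obtain ⟨-, ⟨a1, a2⟩, -, a3⟩ := h1 n
      have a4 := Pool.Agent.V7H52.AG.Z_left α β n
      have a5 : Real.exp (n * α) ≤ C * growth F.symm (fun x => -(β₀ + Λ) * χ x) r s n p :=
        a4.trans a3
      have a6 : Real.exp (Λ * n) * Real.exp (n * β) ≤ Real.exp (n * α) := by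
        rw [← Real.exp_add]
        apply Real.exp_le_exp.mpr
        have : (0 : ℝ) ≤ n := Nat.cast_nonneg n
        nlinarith
      calc 1 / C ^ 2 * Real.exp (Λ * n) * growth F.symm (fun x => -(β₀ + Λ) * χ x) r s n q
          ≤ 1 / C ^ 2 * Real.exp (Λ * n) * (C * Real.exp (n * β)) := by gcongr
        _ = 1 / C * (Real.exp (Λ * n) * Real.exp (n * β)) := by field_simp
        _ ≤ 1 / C * Real.exp (n * α) := by gcongr
        _ ≤ 1 / C * (C * growth F.symm (fun x => -(β₀ + Λ) * χ x) r s n p) := by gcongr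
        _ = _ := by field_simp
  refine ⟨ε₀, hε₀, hA, ?_, ?_⟩
  · intro hnt
    obtain ⟨p, q, hp, hq, hG, hΛ⟩ := hB hnt
    refine ⟨p, q, hp, hq, fun φ ψ hd => ?_, hΛ⟩
    obtain ⟨α, β, hgap⟩ := hG φ ψ hd
    refine ⟨α, β, fun r s hs => ⟨hgap r s hs, ?_⟩⟩
    obtain ⟨C, hC, h1⟩ := hgap r s hs
    refine ⟨1 / C ^ 4, by positivity, fun n D D' hD hD' => ?_⟩
    obtain ⟨⟨-, a1⟩, ⟨-, a2⟩, a3, a4⟩ := h1 n
    have h2 := Pool.Agent.V7H52.AG.gap_prod hC n a1 a2 a3 a4 (hpos hd hs n p) (hpos' hd hs n q)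
      (hD q p) (hD' p q)
    rw [div_mul_eq_mul_div, one_mul, div_le_iff₀ (by positivity)]
    linarith
  · have hs0 : Scales ε₀ ε₀ ε₀ := ⟨hε₀, le_rfl, hε₀, le_rfl⟩
    have hd00 : Pair F (fun _ => 0) (fun _ => 0) := ⟨hzero, hzero, fun _ _ _ _ => rfl⟩
    have hmono : ∀ (G : ℕ → M → ℝ) (n : ℕ) (D D' : ℝ), (∀ x, 0 < G n x) → RatioLe G n D →
        D ≤ D' → RatioLe G n D' := fun G n D D' hG hD hDD x y =>
      (hD x y).trans (mul_le_mul_of_nonneg_right hDD (hG y).le)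
    have hlin : ∀ (C : ℝ) (κ : ℝ), 0 < κ → ∃ n : ℕ, 1 ≤ n ∧ C ≤ κ * n := by
      intro C κ hκ
      obtain ⟨n, hn⟩ := exists_nat_gt (C / κ)
      refine ⟨n + 1, by omega, ?_⟩
      rw [div_lt_iff₀ hκ] at hn
      push_cast
      nlinarith
    have hexp : ∀ (C : ℝ) (κ : ℝ), 0 < κ → ∃ n : ℕ, C ≤ κ * Real.exp (κ * n) := by
      intro C κ hκ
      obtain ⟨n, -, hn⟩ := hlin C (κ * κ) (mul_pos hκ hκ)
      refine ⟨n, hn.trans ?_⟩
      have h1 : κ * n ≤ Real.exp (κ * n) := (by linarith [Real.add_one_le_exp (κ * n)])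
      calc κ * κ * n = κ * (κ * n) := by ring
        _ ≤ _ := by gcongr
    -- exponential growth contradicts `SubExp`
    have hno : ∀ (G : ℕ → M → ℝ) (x y : M) (c : ℝ), 0 < c → (∀ n x, 0 < G n x) →
        (∀ n : ℕ, c * Real.exp (1 * n) * G n x ≤ G n y) → ¬ SubExp G := by
      intro G x y c hc hG h1 h2
      have hκ : 0 < min 1 (c / 2) := lt_min one_pos (half_pos hc)
      obtain ⟨n, hn⟩ := h2 _ hκ
      have h3 := (h1 n).trans (hn y x)
      have h4 := le_of_mul_le_mul_right h3 (hG n x)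
      have h5 : min 1 (c / 2) * Real.exp (min 1 (c / 2) * n) ≤ c / 2 * Real.exp (1 * n) := by
        have a1 : min 1 (c / 2) ≤ 1 := min_le_left _ _
        have a2 : min 1 (c / 2) ≤ c / 2 := min_le_right _ _
        gcongr
      have h6 := Real.exp_pos (1 * (n : ℝ))
      nlinarith
    tfae_have 1 → 2 := by
      intro ht φ ψ hd r s hs
      obtain ⟨P, hP⟩ := hA ht φ ψ hd
      obtain ⟨⟨C, hC, h1⟩, ⟨C', hC', h2⟩⟩ := hP r s hs
      refine ⟨C * C + C' * C', fun n => ⟨fun x y => ?_, fun x y => ?_⟩⟩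
      · have h3 := hpos hd hs n y
        calc growth F φ r s n x ≤ C * Real.exp (n * P) := (h1 n x).2
          _ ≤ C * (C * growth F φ r s n y) := mul_le_mul_of_nonneg_left (h1 n y).1 hC.le
          _ = C * C * growth F φ r s n y := by ring
          _ ≤ _ := mul_le_mul_of_nonneg_right (by nlinarith) h3.le
      · have h3 := hpos' hd hs n y
        calc growth F.symm ψ r s n x ≤ C' * Real.exp (n * P) := (h2 n x).2
          _ ≤ C' * (C' * growth F.symm ψ r s n y) := mul_le_mul_of_nonneg_left (h2 n y).1 hC'.le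
          _ = C' * C' * growth F.symm ψ r s n y := by ring
          _ ≤ _ := mul_le_mul_of_nonneg_right (by nlinarith) h3.le
    tfae_have 2 → 3 := by
      intro h2
      obtain ⟨C, h3⟩ := h2 _ _ hd00 _ _ hs0
      refine ⟨_, _, ε₀, ε₀, hd00, hs0, fun κ hκ => ?_⟩
      obtain ⟨n, hn1, hn⟩ := hlin (C * C) κ hκ
      refine ⟨n, C, C, hn1, ?_, (h3 n).1, (h3 n).2⟩
      have h4 : (1 : ℝ) ≤ n := by exact_mod_cast hn1
      have h5 : (n : ℝ) ≤ (n : ℝ) ^ 2 := by nlinarith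
      calc C * C ≤ κ * n := hn
        _ ≤ _ := by gcongr
    tfae_have 2 → 4 := by
      intro h2
      obtain ⟨C, h3⟩ := h2 _ _ hd00 _ _ hs0
      refine ⟨_, _, ε₀, ε₀, hd00, hs0, fun κ hκ => ?_, fun κ hκ => ?_, fun κ hκ => ?_⟩
      · obtain ⟨n, hn⟩ := hexp C κ hκ
        exact ⟨n, hmono _ n _ _ (hpos hd00 hs0 n) (h3 n).1 hn⟩
      · obtain ⟨n, hn⟩ := hexp C κ hκ
        exact ⟨n, hmono _ n _ _ (hpos' hd00 hs0 n) (h3 n).2 hn⟩
      · obtain ⟨n, hn1, hn⟩ := hlin C κ hκ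
        exact ⟨n, hn1, Or.inl (hmono _ n _ _ (hpos hd00 hs0 n) (h3 n).1 hn)⟩
    tfae_have 2 → 5 := by
      intro h2 φ hφ
      have hd : Pair F φ φ := ⟨hφ, hφ, fun _ _ _ _ => rfl⟩
      obtain ⟨C, h3⟩ := h2 _ _ hd _ _ hs0
      refine ⟨ε₀, ε₀, hs0, fun κ hκ => ?_⟩
      obtain ⟨n, hn⟩ := hexp C κ hκ
      exact ⟨n, hmono _ n _ _ (hpos hd hs0 n) (h3 n).1 hn⟩
    tfae_have 2 → 6 := by
      intro h2 φ hφ
      have hd : Pair F φ φ := ⟨hφ, hφ, fun _ _ _ _ => rfl⟩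
      obtain ⟨C, h3⟩ := h2 _ _ hd _ _ hs0
      refine ⟨ε₀, ε₀, hs0, fun κ hκ => ?_⟩
      obtain ⟨n, hn⟩ := hexp C κ hκ
      exact ⟨n, hmono _ n _ _ (hpos' hd hs0 n) (h3 n).2 hn⟩
    tfae_have 3 → 1 := by
      rintro ⟨φ, ψ, r, s, hd, hs, h3⟩
      by_contra hnt
      obtain ⟨p, q, -, -, hG, -⟩ := hB hnt
      obtain ⟨α, β, hgap⟩ := hG φ ψ hd
      obtain ⟨C, hC, h1⟩ := hgap r s hs
      obtain ⟨n, D, D', hn, hDD, hD, hD'⟩ := h3 (1 / C ^ 4) (by positivity)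
      obtain ⟨⟨-, a1⟩, ⟨-, a2⟩, a3, a4⟩ := h1 n
      have h2 := Pool.Agent.V7H52.AG.gap_prod hC n a1 a2 a3 a4 (hpos hd hs n p)
        (hpos' hd hs n q) (hD q p) (hD' p q)
      have h4 : C ^ 4 * (D * D') ≤ (n : ℝ) ^ 2 := by
        calc C ^ 4 * (D * D') ≤ C ^ 4 * (1 / C ^ 4 * (n : ℝ) ^ 2) := by gcongr
          _ = _ := by field_simp
      have h5 : (0 : ℝ) ≤ n := Nat.cast_nonneg n
      nlinarith
    tfae_have 4 → 1 := by
      rintro ⟨φ, ψ, r, s, hd, hs, h3, h4, h5⟩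
      by_contra hnt
      obtain ⟨p, q, -, -, hG, -⟩ := hB hnt
      obtain ⟨α, β, hgap⟩ := hG φ ψ hd
      obtain ⟨C, hC, h1⟩ := hgap r s hs
      have u1 : ∀ (n : ℕ) (D : ℝ), RatioLe (growth F φ r s) n D →
          Pool.Agent.V7H52.AG.Z α β n ≤ C ^ 2 * D * Real.exp (n * α) := fun n D hD =>
        Pool.Agent.V7H52.AG.gap_one hC n (h1 n).1.2 (h1 n).2.2.1 (hpos hd hs n p) (hD q p)
      have u2 : ∀ (n : ℕ) (D : ℝ), RatioLe (growth F.symm ψ r s) n D →
          Pool.Agent.V7H52.AG.Z β α n ≤ C ^ 2 * D * Real.exp (n * β) := fun n D hD =>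
        Pool.Agent.V7H52.AG.gap_one hC n (h1 n).2.1.2
          (by rw [Pool.Agent.V7H52.AG.Z_symm]; exact (h1 n).2.2.2) (hpos' hd hs n q) (hD p q)
      rcases lt_trichotomy α β with hlt | heq | hlt
      · obtain ⟨κ, hκ, h6⟩ := Pool.Agent.V7H52.AG.gap_exp hC hlt
        obtain ⟨n, hn⟩ := h3 κ hκ
        exact h6 n (u1 n _ hn)
      · obtain ⟨κ, hκ, h6⟩ := Pool.Agent.V7H52.AG.gap_lin hC heq.le
        obtain ⟨κ', hκ', h7⟩ := Pool.Agent.V7H52.AG.gap_lin hC heq.ge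
        obtain ⟨n, -, hn⟩ := h5 (min κ κ') (lt_min hκ hκ')
        have h8 : (0 : ℝ) ≤ n := Nat.cast_nonneg n
        rcases hn with hn | hn
        · exact h6 n (u1 n _ (hmono _ n _ _ (hpos hd hs n) hn
            (mul_le_mul_of_nonneg_right (min_le_left _ _) h8)))
        · exact h7 n (u2 n _ (hmono _ n _ _ (hpos' hd hs n) hn
            (mul_le_mul_of_nonneg_right (min_le_right _ _) h8)))
      · obtain ⟨κ, hκ, h6⟩ := Pool.Agent.V7H52.AG.gap_exp hC hlt
        obtain ⟨n, hn⟩ := h4 κ hκ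
        exact h6 n (u2 n _ hn)
    tfae_have 5 → 1 := by
      intro h5
      by_contra hnt
      obtain ⟨p, q, -, -, -, hΛ⟩ := hB hnt
      obtain ⟨⟨φ, hφ, h1⟩, -⟩ := hΛ 1
      obtain ⟨r, s, hs, h2⟩ := h5 φ hφ
      obtain ⟨c, hc, h3⟩ := h1 r s hs
      exact hno _ p q c hc (fun n x => growth_pos F hφ.1 hs.r_pos hs.s_pos n x) h3 h2
    tfae_have 6 → 1 := by
      intro h6
      by_contra hnt
      obtain ⟨p, q, -, -, -, hΛ⟩ := hB hnt
      obtain ⟨-, ⟨φ, hφ, h1⟩⟩ := hΛ 1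
      obtain ⟨r, s, hs, h2⟩ := h6 φ hφ
      obtain ⟨c, hc, h3⟩ := h1 r s hs
      exact hno _ q p c hc (fun n x => growth_pos F.symm hφ.1 hs.r_pos hs.s_pos n x) h3 h2
    tfae_finish

end Pool.Agent.Results.MP_610fe3_an.GrowthGapH52
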