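import Pool.Agent.V7H85.LV.F
import Pool.Agent.V7H85.LV.G

/-!
# Transitivity of Anosov diffeomorphisms and the Livsic theorem
-/

set_option autoImplicit false

open scoped Manifold ContDiff Topology
open Set Filter

namespace Pool.Agent.Results.MP_610fe3_an.LivsicDichotomyH85

open Pool.Agent.H721R2 Pool.Agent.H789R2.AN

/-- The sum of `φ` over each periodic orbit is zero:
`φ(p) + φ(f p) + … + φ(f^(q-1) p) = 0` if `f^q (p) = p`, `q ≥ 1`. -/
def ZeroSums {M : Type*} (f : M → M) (φ : M → ℝ) : Prop :=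
  ∀ (p : M) (q : ℕ), 1 ≤ q → f^[q] p = p → birkhoffSum f φ q p = 0

/-- The sums `φ(x) + φ(f x) + … + φ(f^(n-1) x)` are bounded, uniformly in `x` and `n`. -/
def BoundedSums {M : Type*} (f : M → M) (φ : M → ℝ) : Prop :=
  ∃ C : ℝ, ∀ (n : ℕ) (x : M), |birkhoffSum f φ n x| ≤ C

/-- `φ = u ∘ f - u` with `u` continuous. -/
def Coboundary {M : Type*} [TopologicalSpace M] (f : M → M) (φ : M → ℝ) : Prop :=
  ∃ u : M → ℝ, Continuous u ∧ ∀ x, φ x = u (f x) - u x

/-- `φ = u ∘ f - u` with `u` bounded and Borel measurable. -/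
def BorelCoboundary {M : Type*} [MeasurableSpace M] (f : M → M) (φ : M → ℝ) : Prop :=
  ∃ u : M → ℝ, Measurable u ∧ (∃ C : ℝ, ∀ x, |u x| ≤ C) ∧ ∀ x, φ x = u (f x) - u x

/-- `φ` is a uniform limit of functions `u ∘ f - u` with `u` continuous. -/
def LimitOfCoboundaries {M : Type*} [TopologicalSpace M] (f : M → M) (φ : M → ℝ) : Prop :=
  ∀ ε > 0, ∃ u : M → ℝ, Continuous u ∧ ∀ x, |φ x - (u (f x) - u x)| ≤ ε

/-- The Bowen property: `φ` is continuous and there are `e > 0` and `V` such that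
`|S_n φ (x) - S_n φ (y)| ≤ V` whenever `d(fᵏ x, fᵏ y) ≤ e` for all `k < n`. -/
def IsBowen {M : Type*} [MetricSpace M] (f : M → M) (φ : M → ℝ) : Prop :=
  Continuous φ ∧ ∃ e > 0, ∃ V : ℝ, ∀ (n : ℕ) (x y : M), (∀ k < n, dist (f^[k] x) (f^[k] y) ≤ e) →
    |birkhoffSum f φ n x - birkhoffSum f φ n y| ≤ V

/-- The Walters property: `φ` is continuous and for every `ε > 0` there is `e > 0` such that
`|S_n φ (x) - S_n φ (y)| ≤ ε` whenever `d(fᵏ x, fᵏ y) ≤ e` for all `k < n`. -/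
def IsWalters {M : Type*} [MetricSpace M] (f : M → M) (φ : M → ℝ) : Prop :=
  Continuous φ ∧ ∀ ε > 0, ∃ e > 0, ∀ (n : ℕ) (x y : M),
    (∀ k < n, dist (f^[k] x) (f^[k] y) ≤ e) → |birkhoffSum f φ n x - birkhoffSum f φ n y| ≤ ε

/-- Hölder functions on a manifold: `|φ x - φ y| ≤ C ‖e x - e y‖ ^ α` for a `C¹` map `e` to some
`ℝᵈ` and some `0 < α ≤ 1`. (Equivalently `φ` is Hölder for the Riemannian distances.) -/
def IsHolder (E : Type*) [NormedAddCommGroup E] [NormedSpace ℝ E] {M : Type*} [TopologicalSpace M]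
    [ChartedSpace E M] (φ : M → ℝ) : Prop :=
  ∃ (d : ℕ) (e : M → (Fin d → ℝ)) (C α : ℝ), ContMDiff 𝓘(ℝ, E) 𝓘(ℝ, Fin d → ℝ) 1 e ∧
    0 < α ∧ α ≤ 1 ∧ ∀ x y, |φ x - φ y| ≤ C * ‖e x - e y‖ ^ α

/-- Smooth functions. -/
def IsSmooth (E : Type*) [NormedAddCommGroup E] [NormedSpace ℝ E] {M : Type*} [TopologicalSpace M]
    [ChartedSpace E M] (φ : M → ℝ) : Prop := ContMDiff 𝓘(ℝ, E) 𝓘(ℝ) ∞ φ

theorem bowen_of_walters {M : Type*} [MetricSpace M] {f : M → M} {φ : M → ℝ}
    (h : IsWalters f φ) : IsBowen f φ := by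
  obtain ⟨e, he, h1⟩ := h.2 1 one_pos
  exact ⟨h.1, e, he, 1, h1⟩

theorem holder_of_smooth {E : Type*} [NormedAddCommGroup E] [NormedSpace ℝ E] {M : Type*}
    [TopologicalSpace M] [ChartedSpace E M] {φ : M → ℝ} (h : IsSmooth E φ) : IsHolder E φ := by
  refine ⟨1, fun x _ => φ x, 1, 1, ?_, one_pos, le_rfl, fun x y => ?_⟩
  · rw [contMDiff_pi_space]
    intro _
    exact h.of_le (by simp)
  · rw [Real.rpow_one, one_mul]
    exact norm_le_pi_norm ((fun _ => φ x : Fin 1 → ℝ) - fun _ => φ y) 0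

/-- **Livsic dichotomy.** Let `f` be a `C¹` Anosov diffeomorphism of a closed connected manifold
`M`, with any distance that defines the topology.

(1) For each function with the Bowen property, zero sums over the periodic orbits, bounded Birkhoff
sums, a bounded Borel transfer function, and being a uniform limit of continuous coboundaries are
equivalent. Transitivity of `f` is not assumed.

(2) Hölder functions have the Walters property, and the Walters property implies the Bowen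
property.

(3) If `f` is transitive, then each function with the Walters property whose sums over the periodic
orbits are zero is a continuous coboundary (Livsic's theorem).

(4) If `f` is not transitive, then for every `m` there are `m` smooth functions `M → [0, 1]` which
vanish at all periodic points and which are linearly independent modulo continuous
coboundaries.

(5) Hence transitivity of `f` is equivalent to each of these statements: Livsic's theorem holds for
functions with the Walters property; for Hölder functions; for smooth functions; each smooth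
function with a bounded Borel transfer function has a continuous one; each smooth uniform limit of
continuous coboundaries is a continuous coboundary; the space of smooth functions with zero sums
over periodic orbits has finite dimension modulo continuous coboundaries. -/
theorem result (E : Type*) [NormedAddCommGroup E] [NormedSpace ℝ E] [FiniteDimensional ℝ E]
    (M : Type*) [MetricSpace M] [CompactSpace M] [ConnectedSpace M] [MeasurableSpace M]
    [BorelSpace M] [ChartedSpace E M] [IsManifold 𝓘(ℝ, E) ∞ M]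
    (f : Diffeomorph 𝓘(ℝ, E) 𝓘(ℝ, E) M M 1)
    (Es Eu : ∀ x : M, Submodule ℝ (TangentSpace 𝓘(ℝ, E) x)) (hf : IsAnosov f Es Eu) :
    (∀ φ : M → ℝ, IsBowen f φ →
      List.TFAE [ZeroSums f φ, BoundedSums f φ, BorelCoboundary f φ, LimitOfCoboundaries f φ]) ∧
    (∀ φ : M → ℝ, (IsHolder E φ → IsWalters f φ) ∧ (IsWalters f φ → IsBowen f φ)) ∧
    (TopTransitive f → ∀ φ : M → ℝ, IsWalters f φ → ZeroSums f φ → Coboundary f φ) ∧
    (¬ TopTransitive f → ∀ m : ℕ, ∃ ψ : Fin m → M → ℝ,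
      (∀ j, IsSmooth E (ψ j) ∧ (∀ x, ψ j x ∈ Icc (0 : ℝ) 1) ∧
        ∀ (p : M) (q : ℕ), 1 ≤ q → f^[q] p = p → ψ j p = 0) ∧
      ∀ a : Fin m → ℝ, Coboundary f (fun x => ∑ j, a j * ψ j x) → a = 0) ∧
    List.TFAE [TopTransitive f,
      ∀ φ : M → ℝ, IsWalters f φ → ZeroSums f φ → Coboundary f φ,
      ∀ φ : M → ℝ, IsHolder E φ → ZeroSums f φ → Coboundary f φ,
      ∀ φ : M → ℝ, IsSmooth E φ → ZeroSums f φ → Coboundary f φ,
      ∀ φ : M → ℝ, IsSmooth E φ → BorelCoboundary f φ → Coboundary f φ,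
      ∀ φ : M → ℝ, IsSmooth E φ → LimitOfCoboundaries f φ → Coboundary f φ,
      ∃ m : ℕ, ∀ ψ : Fin m → M → ℝ, (∀ j, IsSmooth E (ψ j) ∧ ZeroSums f (ψ j)) →
        ∃ a : Fin m → ℝ, a ≠ 0 ∧ Coboundary f (fun x => ∑ j, a j * ψ j x)] := by
  obtain ⟨Y, iY, cY, m₀, h, f', N, S, hconj, hN, hS, hlip⟩ :=
    Pool.Agent.V7H85.LV.exists_model3 f Es Eu hf
  have hY : ConnectedSpace Y := h.surjective.connectedSpace h.continuous
  obtain ⟨c, hc⟩ := Pool.Agent.H789R2.AN.exists_LP S
  set F : M ≃ₜ M := f.toHomeomorph with hF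
  have hconj' : ∀ x, h (F x) = f' (h x) := hconj
  have hfc : Continuous (f : M → M) := F.continuous
  have hc' : Pool.Agent.H789R2.AN.LP (Pool.Agent.H721R2.iterHomeo f' N) c := hS ▸ hc
  have p1 : ∀ φ : M → ℝ, IsBowen f φ → List.TFAE [ZeroSums f φ, BoundedSums f φ,
      BorelCoboundary f φ, LimitOfCoboundaries f φ] := by
    rintro φ ⟨hφ, e, he, V, hB⟩
    tfae_have 1 → 2 := fun hz =>
      Pool.Agent.V7H85.LV.bdd_of_zero (f := F) hconj' hN S hS hc hφ he hB hz
    tfae_have 2 → 3 := fun hb => Pool.Agent.V7H85.LV.cob_of_bdd hfc hφ hb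
    tfae_have 2 → 4 := fun hb => Pool.Agent.V7H85.LV.lim_of_bdd hfc hφ hb
    tfae_have 3 → 1 := by
      rintro ⟨u, -, ⟨C, hC⟩, hu⟩
      exact Pool.Agent.V7H85.LV.zero_of_bdd (Pool.Agent.V7H85.LV.bdd_of_cob hC hu)
    tfae_have 4 → 1 := fun hl => Pool.Agent.V7H85.LV.zero_of_lim fun ε hε => by
      obtain ⟨u, -, hu⟩ := hl ε hε
      exact ⟨u, hu⟩
    tfae_finish
  have hsm : ∀ i : ℕ, ContMDiff 𝓘(ℝ, E) 𝓘(ℝ, E) 1 ((f : M → M)^[i]) := by
    intro i
    induction i with
    | zero => exact contMDiff_id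
    | succ i ih => exact ih.comp f.contMDiff_toFun
  have p2 : ∀ φ : M → ℝ, IsHolder E φ → IsWalters f φ := by
    rintro φ ⟨d, e, C, α, he, hα, hα1, hφ⟩
    have hφc : Continuous φ := by
      rw [continuous_iff_continuousAt]
      intro x
      have h1 : Tendsto (fun y => |C| * ‖e y - e x‖ ^ α) (𝓝 x) (𝓝 0) := by
        have h2 : Tendsto (fun y => ‖e y - e x‖) (𝓝 x) (𝓝 0) := by
          have h3 : Continuous fun y => ‖e y - e x‖ := (he.continuous.sub continuous_const).norm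
          have h4 := h3.tendsto x
          simpa using h4
        have h5 := (h2.rpow_const (Or.inr hα.le)).const_mul |C|
        rwa [Real.zero_rpow hα.ne', mul_zero] at h5
      rw [ContinuousAt, tendsto_iff_norm_sub_tendsto_zero]
      refine squeeze_zero (fun _ => norm_nonneg _) (fun y => ?_) h1
      rw [Real.norm_eq_abs]
      exact (hφ y x).trans (mul_le_mul_of_nonneg_right (le_abs_self C) (by positivity))
    refine ⟨hφc, ?_⟩
    have hL : ∀ i : ℕ, ∃ L : ℝ, 0 ≤ L ∧ ∀ x y : Y,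
        ‖e (f^[i] (h.symm x)) - e (f^[i] (h.symm y))‖ ≤ L * dist x y :=
      fun i => hlip d (fun x => e (f^[i] x)) (he.comp (hsm i))
    choose L hL0 hL using hL
    have key : ∀ x y : Y, |birkhoffSum F φ N (h.symm x) - birkhoffSum F φ N (h.symm y)| ≤
        (∑ i ∈ Finset.range N, |C| * L i ^ α) * dist x y ^ α := by
      intro x y
      unfold birkhoffSum
      rw [← Finset.sum_sub_distrib, Finset.sum_mul]
      refine (Finset.abs_sum_le_sum_abs _ _).trans (Finset.sum_le_sum fun i _ => ?_)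
      have h1 := hφ (f^[i] (h.symm x)) (f^[i] (h.symm y))
      have h2 := hL i x y
      calc |φ (F^[i] (h.symm x)) - φ (F^[i] (h.symm y))|
          ≤ C * ‖e (f^[i] (h.symm x)) - e (f^[i] (h.symm y))‖ ^ α := h1
        _ ≤ |C| * ‖e (f^[i] (h.symm x)) - e (f^[i] (h.symm y))‖ ^ α :=
            mul_le_mul_of_nonneg_right (le_abs_self C) (by positivity)
        _ ≤ |C| * (L i * dist x y) ^ α :=
            mul_le_mul_of_nonneg_left (Real.rpow_le_rpow (norm_nonneg _) h2 hα.le) (abs_nonneg C)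
        _ = |C| * L i ^ α * dist x y ^ α := by
            rw [Real.mul_rpow (hL0 i) dist_nonneg, mul_assoc]
    have hW := Pool.Agent.V7H85.LV.hold_walt S hc hα hα1 (Finset.sum_nonneg fun i _ =>
      mul_nonneg (abs_nonneg C) (Real.rpow_nonneg (hL0 i) α)) key
    rw [hS] at hW
    exact Pool.Agent.V7H85.LV.walt_back hconj' hN hφc hW
  have p3 : TopTransitive f → ∀ φ : M → ℝ, IsWalters f φ → ZeroSums f φ → Coboundary f φ :=
    fun ht φ hW hz => Pool.Agent.V7H85.LV.livsic_back (f := F) hconj' hN S hS hc hW.1 hW.2 hz ht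
  have p4 : ¬ TopTransitive f → ∀ m : ℕ, ∃ ψ : Fin m → M → ℝ,
      (∀ j, IsSmooth E (ψ j) ∧ (∀ x, ψ j x ∈ Icc (0 : ℝ) 1) ∧
        ∀ (p : M) (q : ℕ), 1 ≤ q → f^[q] p = p → ψ j p = 0) ∧
      ∀ a : Fin m → ℝ, Coboundary f (fun x => ∑ j, a j * ψ j x) → a = 0 := by
    intro ht m
    obtain ⟨y, U, hU, hfam⟩ :=
      Pool.Agent.V7H85.LV.family_back (f := F) hconj' hN hc' ht m
    have hb : ∀ j, ∃ ψ : M → ℝ, IsSmooth E ψ ∧ (∀ x, ψ x ∈ Icc (0 : ℝ) 1) ∧
        (∀ x, x ∉ U j → ψ x = 0) ∧ ψ (y j) = 1 := by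
      intro j
      obtain ⟨ψ, h1, h2, h3⟩ := exists_contMDiffMap_zero_one_of_isClosed (n := ⊤) 𝓘(ℝ, E)
        (hU j).1.isClosed_compl (isClosed_singleton (x := y j))
        (Set.disjoint_left.mpr fun x hx hxy => hx (by
          rw [mem_singleton_iff] at hxy
          rw [hxy]
          exact (hU j).2.1))
      exact ⟨ψ, ψ.contMDiff, h3, fun x hx => h1 hx, h2 rfl⟩
    choose ψ h1 h2 h3 h4 using hb
    refine ⟨ψ, fun j => ⟨h1 j, h2 j, fun p q hq hp => h3 j p ((hU j).2.2 p q hq hp)⟩, ?_⟩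
    rintro a ⟨u, hu, hcob⟩
    exact hfam ψ h3 (fun j => by rw [h4 j]; exact one_ne_zero) a u hu hcob
  have sb : ∀ φ : M → ℝ, IsSmooth E φ → IsBowen f φ := fun φ hφ =>
    bowen_of_walters (p2 φ (holder_of_smooth hφ))
  refine ⟨p1, fun φ => ⟨p2 φ, bowen_of_walters⟩, p3, p4, ?_⟩
  tfae_have 1 → 2 := p3
  tfae_have 2 → 3 := fun H φ hφ => H φ (p2 φ hφ)
  tfae_have 3 → 4 := fun H φ hφ => H φ (holder_of_smooth hφ)
  tfae_have 4 → 5 := fun H φ hφ hb => H φ hφ (((p1 φ (sb φ hφ)).out 2 0).mp hb)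
  tfae_have 5 → 6 := fun H φ hφ hb => H φ hφ (((p1 φ (sb φ hφ)).out 3 2).mp hb)
  tfae_have 6 → 4 := fun H φ hφ hb => H φ hφ (((p1 φ (sb φ hφ)).out 0 3).mp hb)
  tfae_have 4 → 7 := by
    intro H
    refine ⟨1, fun ψ hψ => ⟨fun _ => 1, ?_, ?_⟩⟩
    · intro h0
      exact one_ne_zero (congrFun h0 0)
    · obtain ⟨u, hu, hcob⟩ := H (ψ 0) (hψ 0).1 (hψ 0).2
      refine ⟨u, hu, fun x => ?_⟩
      rw [← hcob]
      simp
  tfae_have 7 → 1 := by
    rintro ⟨m, hm⟩
    by_contra ht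
    obtain ⟨ψ, hψ, hind⟩ := p4 ht m
    obtain ⟨a, ha, hcob⟩ := hm ψ fun j => ⟨(hψ j).1, fun p q hq hp =>
      Pool.Agent.V7H85.LV.bsum_zero' (F := F) fun i _ => (hψ j).2.2 _ q hq (by
        show F^[q] (F^[i] p) = F^[i] p
        rw [← Function.iterate_add_apply, add_comm, Function.iterate_add_apply]
        exact congrArg _ hp)⟩
    exact ha (hind a hcob)
  tfae_finish

end Pool.Agent.Results.MP_610fe3_an.LivsicDichotomyH85
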