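import Pool.Agent.V7H6.AD.K

set_option autoImplicit false

open scoped Manifold ContDiff Topology
open Set Filter MeasureTheory

namespace Pool.Agent.Results.MP_610fe3_an.PeriodicDeterminantsH6

open Pool.Agent.H721R2 Pool.Agent.H789R2.AN Pool.Agent.V7H6.AD

/-- **Periodic orbits and transitivity of Anosov diffeomorphisms.**
Let `f` be a `C¹` Anosov diffeomorphism of a closed connected smooth manifold `M`.

(A) Let `ν` be a finite Borel measure, positive on nonempty open sets, with `ν(f(A)) = ∫_A e^ψ dν`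
for all Borel sets `A`, where `ψ` is locally Hölder.  Then every trap `W` (open, `∅ ≠ W ≠ M`,
`f(closure W) ⊆ W`) contains a periodic point over whose orbit the sum of `ψ` is negative, and the
complement of its closure contains one for which it is positive.  If the sums of `ψ` over periodic
orbits are all `≥ 0`, or all `≤ 0`, then `f` is topologically transitive and `ψ = u ∘ f - u` with
`u` continuous.

(B) Let `f` be of class `C²`, or `C^{1+α}`.  Then every trap `W` contains a periodic point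
`p = fⁿ(p)` with `|det D_p fⁿ| < 1`, and the complement of its closure contains one with
`|det D_q fᵐ| > 1`; if `f` is not transitive, both kinds of periodic points exist.  The following
are equivalent: `f` preserves a finite measure with continuous positive density; `|det D_p fⁿ| = 1`
at all periodic points; `≥ 1` at all of them; `≤ 1` at all of them. -/
theorem result (E : Type*) [NormedAddCommGroup E] [NormedSpace ℝ E] [FiniteDimensional ℝ E]
    (M : Type*) [TopologicalSpace M] [T2Space M] [CompactSpace M] [ConnectedSpace M]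
    [ChartedSpace E M] [IsManifold 𝓘(ℝ, E) ∞ M] (f : Diffeomorph 𝓘(ℝ, E) 𝓘(ℝ, E) M M 1)
    (Es Eu : ∀ x : M, Submodule ℝ (TangentSpace 𝓘(ℝ, E) x)) (hA : IsAnosov f Es Eu) :
    (∀ [MeasurableSpace M] [BorelSpace M] (α : ℝ) (ψ : M → ℝ) (ν : Measure M) [IsFiniteMeasure ν],
      0 < α → α ≤ 1 → LocHolder E α ψ → (∀ U : Set M, IsOpen U → U.Nonempty → ν U ≠ 0) →
      (∀ A : Set M, MeasurableSet A →
        ν (f '' A) = ∫⁻ x in A, ENNReal.ofReal (Real.exp (ψ x)) ∂ν) →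
      (∀ W : Set M, IsTrap f W →
        (∃ p ∈ W, ∃ n : ℕ, 1 ≤ n ∧ f^[n] p = p ∧ ∑ i ∈ Finset.range n, ψ (f^[i] p) < 0) ∧
        ∃ q, q ∉ closure W ∧ ∃ n : ℕ, 1 ≤ n ∧ f^[n] q = q ∧
          0 < ∑ i ∈ Finset.range n, ψ (f^[i] q)) ∧
      (((∀ p : M, ∀ n : ℕ, 1 ≤ n → f^[n] p = p → 0 ≤ ∑ i ∈ Finset.range n, ψ (f^[i] p)) ∨
        (∀ p : M, ∀ n : ℕ, 1 ≤ n → f^[n] p = p → ∑ i ∈ Finset.range n, ψ (f^[i] p) ≤ 0)) →
        TopTransitive f ∧ ∃ u : M → ℝ, Continuous u ∧ ∀ x, ψ x = u (f x) - u x)) ∧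
    ((ContMDiff 𝓘(ℝ, E) 𝓘(ℝ, E) 2 f ∨ ∃ α : ℝ, 0 < α ∧ α ≤ 1 ∧ DerivHolder E α f) →
      (∀ W : Set M, IsTrap f W →
        (∃ p ∈ W, ∃ n : ℕ, 1 ≤ n ∧ f^[n] p = p ∧ absDet E (f^[n]) p < 1) ∧
        ∃ q, q ∉ closure W ∧ ∃ n : ℕ, 1 ≤ n ∧ f^[n] q = q ∧ 1 < absDet E (f^[n]) q) ∧
      (¬ TopTransitive f →
        (∃ p : M, ∃ n : ℕ, 1 ≤ n ∧ f^[n] p = p ∧ absDet E (f^[n]) p < 1) ∧
        ∃ q : M, ∃ n : ℕ, 1 ≤ n ∧ f^[n] q = q ∧ 1 < absDet E (f^[n]) q) ∧
      ∀ [MeasurableSpace E] [BorelSpace E] [MeasurableSpace M] [BorelSpace M] (μ : Measure E)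
        [μ.IsAddHaarMeasure], List.TFAE [
          ∃ m : Measure M, IsFiniteMeasure m ∧ HasDensity E μ m ∧ m.map f = m,
          ∀ p : M, ∀ n : ℕ, 1 ≤ n → f^[n] p = p → absDet E (f^[n]) p = 1,
          ∀ p : M, ∀ n : ℕ, 1 ≤ n → f^[n] p = p → 1 ≤ absDet E (f^[n]) p,
          ∀ p : M, ∀ n : ℕ, 1 ≤ n → f^[n] p = p → absDet E (f^[n]) p ≤ 1]) :=
  ⟨fun α ψ ν _ hα hα1 hψ hpos hν => partA E M f Es Eu hA α ψ ν hα hα1 hψ hpos hν,
    partB E M f Es Eu hA⟩

end Pool.Agent.Results.MP_610fe3_an.PeriodicDeterminantsH6
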