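import Pool.Agent.V7H52.PG.B8

/-!
# Bowen's estimate, periodic orbits and the transitivity of Anosov diffeomorphisms
-/

set_option autoImplicit false

open scoped Manifold ContDiff Topology
open Set Filter

namespace Pool.Agent.Results.MP_610fe3_an.PressureGapH52

open Pool.Agent.H721R2 Pool.Agent.H789R2.AN

/-- Potentials: continuous functions with the Bowen property. With
`S_n φ (x) = φ (x) + φ (g x) + … + φ (gⁿ⁻¹ x)`, there are `e > 0` and `V` such that
`|S_n φ (x) - S_n φ (y)| ≤ V` whenever `d(gᵏ x, gᵏ y) ≤ e` for all `k < n`.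
(All Hölder functions have this property when `g` is Anosov.) -/
def IsPotential {M : Type*} [MetricSpace M] (g : M ≃ₜ M) (φ : M → ℝ) : Prop :=
  Continuous φ ∧ ∃ e > 0, ∃ V : ℝ, ∀ (n : ℕ) (x y : M), (∀ k < n, dist (g^[k] x) (g^[k] y) ≤ e) →
    |birkhoffSum g φ n x - birkhoffSum g φ n y| ≤ V

/-- The supremum `E n` of `∑_{y ∈ F} exp (S_n φ (y))` over the finite sets `F` such that any two
points of `F` have distance more than `s` at one of the times `0, 1, …, n`. -/
noncomputable def sepSum {M : Type*} [MetricSpace M] (g : M ≃ₜ M) (φ : M → ℝ) (s : ℝ) (n : ℕ) : ℝ :=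
  sSup {a | ∃ F : Finset M, (∀ y ∈ F, ∀ z ∈ F, y ≠ z → ∃ k ≤ n, s < dist (g^[k] y) (g^[k] z)) ∧
    ∑ y ∈ F, Real.exp (birkhoffSum g φ n y) = a}

/-- The topological pressure: the supremum over the scales `s > 0` of `limsup (log (E n)) / n`. -/
noncomputable def pressure {M : Type*} [MetricSpace M] (g : M ≃ₜ M) (φ : M → ℝ) : ℝ :=
  ⨆ s : {s : ℝ // 0 < s}, limsup (fun n : ℕ => Real.log (sepSum g φ s n) / n) atTop

/-- The sum `Z n` of `exp (S_n φ (x))` over the points `x` with `gⁿ x = x`. -/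
noncomputable def perSum {M : Type*} [MetricSpace M] (g : M ≃ₜ M) (φ : M → ℝ) (n : ℕ) : ℝ :=
  ∑' x : {x : M // g^[n] x = x}, Real.exp (birkhoffSum g φ n x)

/-- The local unstable set of `x` of size `r`: all `y` with `d(g⁻ᵏ x, g⁻ᵏ y) ≤ r` for all
`k ≥ 0`. -/
def localUnstable {M : Type*} [MetricSpace M] (g : M ≃ₜ M) (r : ℝ) (x : M) : Set M :=
  {y | ∀ k : ℕ, dist (g.symm^[k] x) (g.symm^[k] y) ≤ r}

/-- The growth `U n x` of a local unstable set: the supremum of `∑_{y ∈ F} exp (S_n φ (y))` over the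
finite subsets `F` of the local unstable set of `x` of size `r` such that any two points of `F`
have distance more than `s` at one of the times `0, 1, …, n`. -/
noncomputable def growth {M : Type*} [MetricSpace M] (g : M ≃ₜ M) (φ : M → ℝ) (r s : ℝ) (n : ℕ)
    (x : M) : ℝ :=
  sSup {a | ∃ F : Finset M, (F : Set M) ⊆ localUnstable g r x ∧
    (∀ y ∈ F, ∀ z ∈ F, y ≠ z → ∃ k ≤ n, s < dist (g^[k] y) (g^[k] z)) ∧
    ∑ y ∈ F, Real.exp (birkhoffSum g φ n y) = a}

/-- `r` and `s` are positive scales not larger than `ε₀`. -/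
structure Scales (ε₀ r s : ℝ) : Prop where
  r_pos : 0 < r
  r_le : r ≤ ε₀
  s_pos : 0 < s
  s_le : s ≤ ε₀

/-- `a` and `b` are equal up to the factor `C`. -/
def Comparable (C a b : ℝ) : Prop := a ≤ C * b ∧ b ≤ C * a

lemma sep_eq {M : Type*} [MetricSpace M] (g : M ≃ₜ M) (φ : M → ℝ) (s : ℝ) (n : ℕ) :
    sepSum g φ s n = Pool.Agent.N520.T.Lam g φ s n univ := by
  unfold sepSum Pool.Agent.N520.T.Lam
  congr 1
  ext a
  constructor
  · rintro ⟨F, h1, h2⟩
    exact ⟨F, subset_univ _, h1, h2⟩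
  · rintro ⟨F, -, h1, h2⟩
    exact ⟨F, h1, h2⟩

lemma growth_eq {M : Type*} [MetricSpace M] (g : M ≃ₜ M) (φ : M → ℝ) (r s : ℝ) (n : ℕ) (x : M) :
    growth g φ r s n x = Pool.Agent.N520.T.Lam g φ s n (Pool.Agent.N520.T.Wu g r x) := rfl

lemma per_eq {M : Type*} [MetricSpace M] (g : M ≃ₜ M) (φ : M → ℝ) (n : ℕ) :
    perSum g φ n = Pool.Agent.V7H52.PG.PZ g φ n := rfl

/-- **Bowen's estimate and periodic orbits detect the transitivity of Anosov diffeomorphisms.**
Let `f` be a `C¹` Anosov diffeomorphism of a closed connected manifold `M`, with any distance that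
defines the topology. For a potential `φ` let `P` be its topological pressure, `E n` the supremum of
`∑ exp (S_n φ)` over the `(n, s)`-separated sets, `Z n` the sum of `exp (S_n φ)` over the (finitely
many) fixed points of `fⁿ`, and `U n x` the supremum of `∑ exp (S_n φ)` over the `(n, s)`-separated
subsets of the local unstable set of `x` of size `r`. There is `ε₀ > 0` such that the following
holds for scales `r, s ≤ ε₀`.

(A) If `f` is transitive, then `E n` and `Z (n + 1) + … + Z (n + K)` are both of the order of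
`exp (n P)`, for every potential `φ` (`K` and the constants depend on `φ`, `s`).

(B) If `f` is not transitive, then there are a potential `φ` and a periodic point `q` such that
`Z (n + 1) + … + Z (n + K)` is of the order of `exp (n P)`, but `E n` and `U n q` are of the order
of `(n + 1) exp (n P)`.

(C) The following are equivalent:
1. `f` is transitive;
2. for every potential, `E n ≤ C exp (n P)` (Bowen's estimate);
3. for every potential, `E n ≤ C (Z (n + 1) + … + Z (n + K))`;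
4. for every potential and some scales, it is not true that `sup_x U n x ≥ κ n exp (n P)` for some
   `κ > 0` and all `n`;
5. for every potential, some scales and some `K`, it is not true that
   `sup_x U n x ≥ κ n (Z (n + 1) + … + Z (n + K))` for some `κ > 0` and all `n`. -/
theorem result (E : Type*) [NormedAddCommGroup E] [NormedSpace ℝ E] [FiniteDimensional ℝ E]
    (M : Type*) [MetricSpace M] [CompactSpace M] [ConnectedSpace M]
    [ChartedSpace E M] [IsManifold 𝓘(ℝ, E) ∞ M] (f : Diffeomorph 𝓘(ℝ, E) 𝓘(ℝ, E) M M 1)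
    (Es Eu : ∀ x : M, Submodule ℝ (TangentSpace 𝓘(ℝ, E) x)) (hf : IsAnosov f Es Eu) :
    ∃ ε₀ > 0, (∀ n : ℕ, 1 ≤ n → {x : M | f^[n] x = x}.Finite) ∧
    (TopTransitive f → ∀ φ, IsPotential f.toHomeomorph φ → ∀ s : ℝ, 0 < s → s ≤ ε₀ →
      ∃ K : ℕ, 1 ≤ K ∧ ∃ C > 0, ∀ n : ℕ,
        Comparable C (sepSum f.toHomeomorph φ s n)
          (Real.exp (n * pressure f.toHomeomorph φ)) ∧
        Comparable C (∑ m ∈ Finset.Icc 1 K, perSum f.toHomeomorph φ (n + m))
          (Real.exp (n * pressure f.toHomeomorph φ))) ∧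
    (¬ TopTransitive f → ∃ (φ : M → ℝ) (q : M), IsPotential f.toHomeomorph φ ∧
      (∃ T : ℕ, 1 ≤ T ∧ f^[T] q = q) ∧ ∀ r s : ℝ, Scales ε₀ r s →
      ∃ K : ℕ, 1 ≤ K ∧ ∃ C > 0, ∀ n : ℕ,
        Comparable C (sepSum f.toHomeomorph φ s n)
          (((n : ℝ) + 1) * Real.exp (n * pressure f.toHomeomorph φ)) ∧
        Comparable C (growth f.toHomeomorph φ r s n q)
          (((n : ℝ) + 1) * Real.exp (n * pressure f.toHomeomorph φ)) ∧
        Comparable C (∑ m ∈ Finset.Icc 1 K, perSum f.toHomeomorph φ (n + m))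
          (Real.exp (n * pressure f.toHomeomorph φ))) ∧
    List.TFAE [TopTransitive f,
      ∀ φ, IsPotential f.toHomeomorph φ → ∀ s : ℝ, 0 < s → s ≤ ε₀ → ∃ C, ∀ n : ℕ,
        sepSum f.toHomeomorph φ s n ≤ C * Real.exp (n * pressure f.toHomeomorph φ),
      ∀ φ, IsPotential f.toHomeomorph φ → ∀ s : ℝ, 0 < s → s ≤ ε₀ → ∃ (C : ℝ) (K : ℕ), ∀ n : ℕ,
        sepSum f.toHomeomorph φ s n ≤
          C * ∑ m ∈ Finset.Icc 1 K, perSum f.toHomeomorph φ (n + m),
      ∀ φ, IsPotential f.toHomeomorph φ → ∃ r s : ℝ, Scales ε₀ r s ∧ ∀ κ > 0, ∃ n : ℕ, 1 ≤ n ∧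
        ∀ x, growth f.toHomeomorph φ r s n x ≤
          κ * n * Real.exp (n * pressure f.toHomeomorph φ),
      ∀ φ, IsPotential f.toHomeomorph φ → ∃ (r s : ℝ) (K : ℕ), Scales ε₀ r s ∧ ∀ κ > 0,
        ∃ n : ℕ, 1 ≤ n ∧ ∀ x, growth f.toHomeomorph φ r s n x ≤
          κ * n * ∑ m ∈ Finset.Icc 1 K, perSum f.toHomeomorph φ (n + m)] := by
  obtain ⟨ε₀, hε₀, hfin, hT, hN⟩ := Pool.Agent.V7H52.PG.main f Es Eu hf
  set F : M ≃ₜ M := f.toHomeomorph with hF
  obtain ⟨x₀⟩ : Nonempty M := inferInstance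
  -- the value of the pressure
  have hpres : ∀ (φ : M → ℝ) (P : ℝ), IsPotential F φ →
      (∀ s > 0, ∃ C > 0, ∀ n : ℕ,
        Pool.Agent.N520.T.Lam F φ s n univ ≤ C * ((n + 1) * Real.exp (n * P))) →
      (∀ s > 0, s ≤ ε₀ → ∃ C > 0, ∀ n : ℕ,
        Real.exp (n * P) ≤ C * Pool.Agent.N520.T.Lam F φ s n univ) → pressure F φ = P := by
    intro φ P hφ h1 h2
    obtain ⟨B, hB⟩ := Pool.Agent.V7H52.AG.pot_bdd hφ
    have h3 := Pool.Agent.V7H52.PG.sup_eq (A := fun s n => sepSum F φ s n) (P := P) (B := -B) hε₀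
      (fun s hs n => by
        rw [sep_eq]
        exact Pool.Agent.N520.T.lam_pos hB hs (mem_univ x₀)) (fun s hs n => by
        rw [sep_eq]
        refine le_trans ?_ (Pool.Agent.V7H52.AG.lam_point hB hs (mem_univ x₀))
        apply Real.exp_le_exp.mpr
        have := (abs_le.mp (Pool.Agent.N520.T.bsum_bound F hB n x₀)).1
        linarith) (fun s hs => by
        obtain ⟨C, hC, h4⟩ := h1 s hs
        exact ⟨C, hC, fun n => by rw [sep_eq]; exact h4 n⟩) (fun s hs hsε => by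
        obtain ⟨C, hC, h4⟩ := h2 s hs hsε
        exact ⟨C, hC, fun n => by rw [sep_eq]; exact h4 n⟩)
    exact h3
  have hgrow : ∀ (φ : M → ℝ) (r s : ℝ) (n : ℕ) (x : M), IsPotential F φ → 0 < s →
      growth F φ r s n x ≤ sepSum F φ s n := by
    intro φ r s n x hφ hs
    obtain ⟨B, hB⟩ := Pool.Agent.V7H52.AG.pot_bdd hφ
    rw [sep_eq, growth_eq]
    exact Pool.Agent.N520.T.lam_mono hB hs (subset_univ _)
  have hgpos : ∀ (φ : M → ℝ) (r s : ℝ) (n : ℕ) (x : M), IsPotential F φ → 0 < s →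
      0 ≤ growth F φ r s n x := by
    intro φ r s n x hφ hs
    obtain ⟨B, hB⟩ := Pool.Agent.V7H52.AG.pot_bdd hφ
    rw [growth_eq]
    exact Pool.Agent.N520.T.lam_nonneg hB hs n _
  have hpernn : ∀ (φ : M → ℝ) (n : ℕ), 0 ≤ perSum F φ n := fun φ n =>
    Pool.Agent.V7H52.PG.PZ_nonneg F φ n
  have hsumnn : ∀ (φ : M → ℝ) (n K : ℕ), 0 ≤ ∑ m ∈ Finset.Icc 1 K, perSum F φ (n + m) :=
    fun φ n K => Finset.sum_nonneg fun m _ => hpernn φ _
  -- upper bound of the periodic sums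
  have hpersum : ∀ (φ : M → ℝ) (P C : ℝ) (K : ℕ), 0 < C →
      (∀ n : ℕ, 1 ≤ n → Pool.Agent.V7H52.PG.PZ F φ n ≤ C * Real.exp (n * P)) → ∀ n : ℕ,
      ∑ m ∈ Finset.Icc 1 K, perSum F φ (n + m) ≤
        (C * ((K : ℝ) + 1) * Real.exp (K * |P|)) * Real.exp (n * P) := by
    intro φ P C K hC h1 n
    calc ∑ m ∈ Finset.Icc 1 K, perSum F φ (n + m)
        ≤ ∑ m ∈ Finset.Icc 1 K, C * Real.exp (K * |P|) * Real.exp (n * P) := by
          refine Finset.sum_le_sum fun m hm => ?_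
          rw [Finset.mem_Icc] at hm
          refine (h1 (n + m) (by omega)).trans ?_
          rw [mul_assoc, ← Real.exp_add]
          apply mul_le_mul_of_nonneg_left _ hC.le
          apply Real.exp_le_exp.mpr
          have h2 : (m : ℝ) * P ≤ K * |P| := by
            have h3 : (m : ℝ) * P ≤ m * |P| :=
              mul_le_mul_of_nonneg_left (le_abs_self P) (Nat.cast_nonneg m)
            have h4 : (m : ℝ) * |P| ≤ K * |P| := by
              apply mul_le_mul_of_nonneg_right _ (abs_nonneg P)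
              exact_mod_cast hm.2
            linarith
          push_cast
          linarith
      _ = K * (C * Real.exp (K * |P|) * Real.exp (n * P)) := by
          rw [Finset.sum_const, Nat.card_Icc, nsmul_eq_mul]
          simp
      _ ≤ (K + 1) * (C * Real.exp (K * |P|) * Real.exp (n * P)) := by
          apply mul_le_mul_of_nonneg_right (by linarith)
          positivity
      _ = _ := by ring
  have hA : TopTransitive f → ∀ φ, IsPotential F φ → ∀ s : ℝ, 0 < s → s ≤ ε₀ →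
      ∃ K : ℕ, 1 ≤ K ∧ ∃ C > 0, ∀ n : ℕ,
        Comparable C (sepSum F φ s n) (Real.exp (n * pressure F φ)) ∧
        Comparable C (∑ m ∈ Finset.Icc 1 K, perSum F φ (n + m))
          (Real.exp (n * pressure F φ)) := by
    intro ht φ hφ s hs hsε
    obtain ⟨P, h1, h2, h3, C₀, hC₀, h4⟩ := hT ht φ hφ
    have hP : pressure F φ = P := hpres φ P hφ (fun s hs => by
      obtain ⟨C, hC, h5⟩ := h1 s hs
      refine ⟨C, hC, fun n => (h5 n).trans ?_⟩
      have : (1 : ℝ) ≤ (n : ℝ) + 1 := by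
        have : (0 : ℝ) ≤ n := Nat.cast_nonneg n
        linarith
      have h6 := Real.exp_pos (n * P)
      nlinarith [mul_le_mul_of_nonneg_right this h6.le]) h2
    obtain ⟨C₁, hC₁, g1⟩ := h1 s hs
    obtain ⟨C₂, hC₂, g2⟩ := h2 s hs hsε
    obtain ⟨K, hK, C₃, hC₃, g3⟩ := h3 s hs
    have g4 := hpersum φ P C₀ K hC₀ h4
    set C₄ := C₀ * ((K : ℝ) + 1) * Real.exp (K * |P|) with hC₄
    have hC₄0 : 0 < C₄ := by positivity
    refine ⟨K, hK, C₁ + C₂ + C₂ * C₃ + C₄, by positivity, fun n => ?_⟩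
    rw [hP]
    have h6 := Real.exp_pos (n * P)
    have h7 : 0 ≤ Pool.Agent.N520.T.Lam F φ s n univ := by
      obtain ⟨B, hB⟩ := Pool.Agent.V7H52.AG.pot_bdd hφ
      exact Pool.Agent.N520.T.lam_nonneg hB hs n _
    have h8 := hsumnn φ n K
    have hp1 : 0 < C₂ * C₃ := by positivity
    refine ⟨⟨?_, ?_⟩, ⟨?_, ?_⟩⟩
    · rw [sep_eq]
      exact (g1 n).trans (mul_le_mul_of_nonneg_right (by linarith) h6.le)
    · rw [sep_eq]
      exact (g2 n).trans (mul_le_mul_of_nonneg_right (by linarith) h7)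
    · exact (g4 n).trans (mul_le_mul_of_nonneg_right (by linarith) h6.le)
    · calc Real.exp (n * P) ≤ C₂ * Pool.Agent.N520.T.Lam F φ s n univ := g2 n
        _ ≤ C₂ * (C₃ * ∑ m ∈ Finset.Icc 1 K, perSum F φ (n + m)) :=
          mul_le_mul_of_nonneg_left (g3 n) hC₂.le
        _ = C₂ * C₃ * ∑ m ∈ Finset.Icc 1 K, perSum F φ (n + m) := by ring
        _ ≤ _ := mul_le_mul_of_nonneg_right (by linarith) h8
  have hB : ¬ TopTransitive f → ∃ (φ : M → ℝ) (q : M), IsPotential F φ ∧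
      (∃ T : ℕ, 1 ≤ T ∧ f^[T] q = q) ∧
      (∀ r s : ℝ, Scales ε₀ r s → ∃ K : ℕ, 1 ≤ K ∧ ∃ C > 0, ∀ n : ℕ,
        Comparable C (sepSum F φ s n) (((n : ℝ) + 1) * Real.exp (n * pressure F φ)) ∧
        Comparable C (growth F φ r s n q) (((n : ℝ) + 1) * Real.exp (n * pressure F φ)) ∧
        Comparable C (∑ m ∈ Finset.Icc 1 K, perSum F φ (n + m))
          (Real.exp (n * pressure F φ))) ∧
      ∀ K : ℕ, ∃ C > 0, ∀ n : ℕ,
        ∑ m ∈ Finset.Icc 1 K, perSum F φ (n + m) ≤ C * Real.exp (n * pressure F φ) := by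
    intro hnt
    obtain ⟨φ, hφ, P, q, hq, h1, h2, ⟨K, hK, C₃, hC₃, h3⟩, C₀, hC₀, h4⟩ := hN hnt
    have hφ' : IsPotential F φ := hφ
    have hlow : ∀ s > 0, s ≤ ε₀ → ∃ C > 0, ∀ n : ℕ,
        Real.exp (n * P) ≤ C * Pool.Agent.N520.T.Lam F φ s n univ := by
      intro s hs hsε
      obtain ⟨C, hC, h5⟩ := h2 s s hs hsε hs hsε
      refine ⟨C, hC, fun n => ?_⟩
      have h6 := Real.exp_pos (n * P)
      have h7 : Real.exp (n * P) ≤ (n + 1) * Real.exp (n * P) := by
        have : (0 : ℝ) ≤ n := Nat.cast_nonneg n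
        nlinarith
      have h8 := hgrow φ s s n q hφ' hs
      rw [sep_eq, growth_eq] at h8
      exact h7.trans ((h5 n).trans (mul_le_mul_of_nonneg_left h8 hC.le))
    have hP : pressure F φ = P := hpres φ P hφ' h1 hlow
    refine ⟨φ, q, hφ', hq, ?_, fun K' => ⟨C₀ * ((K' : ℝ) + 1) * Real.exp (K' * |P|),
      by positivity, fun n => ?_⟩⟩
    swap
    · rw [hP]
      exact hpersum φ P C₀ K' hC₀ h4 n
    · intro r s hs
      obtain ⟨C₁, hC₁, g1⟩ := h1 s hs.s_pos
      obtain ⟨C₂, hC₂, g2⟩ := h2 r s hs.r_pos hs.r_le hs.s_pos hs.s_le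
      have g4 := hpersum φ P C₀ K hC₀ h4
      set C₄ := C₀ * ((K : ℝ) + 1) * Real.exp (K * |P|) with hC₄
      have hC₄0 : 0 < C₄ := by positivity
      refine ⟨K, hK, C₁ + C₂ + C₃ + C₄, by positivity, fun n => ?_⟩
      rw [hP]
      have h6 := Real.exp_pos (n * P)
      have h6' : 0 ≤ ((n : ℝ) + 1) * Real.exp (n * P) := by positivity
      have h9 := hgrow φ r s n q hφ' hs.s_pos
      have h10 := hgpos φ r s n q hφ' hs.s_pos
      have h8 := hsumnn φ n K
      have g1' : sepSum F φ s n ≤ (C₁ + C₂ + C₃ + C₄) * (((n : ℝ) + 1) * Real.exp (n * P)) := by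
        rw [sep_eq]
        exact (g1 n).trans (mul_le_mul_of_nonneg_right (by linarith) h6')
      have g2' : ((n : ℝ) + 1) * Real.exp (n * P) ≤ (C₁ + C₂ + C₃ + C₄) * growth F φ r s n q :=
        (g2 n).trans (mul_le_mul_of_nonneg_right (by linarith) h10)
      refine ⟨⟨g1', ?_⟩, ⟨h9.trans g1', g2'⟩, ⟨?_, ?_⟩⟩
      · exact g2'.trans (mul_le_mul_of_nonneg_left h9 (by positivity))
      · exact (g4 n).trans (mul_le_mul_of_nonneg_right (by linarith) h6.le)
      · exact (h3 n).trans (mul_le_mul_of_nonneg_right (by linarith) h8)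
  have hs0 : Scales ε₀ ε₀ ε₀ := ⟨hε₀, le_rfl, hε₀, le_rfl⟩
  have hlin : ∀ (C : ℝ) (κ : ℝ), 0 < κ → ∃ n : ℕ, 1 ≤ n ∧ C ≤ κ * n := by
    intro C κ hκ
    obtain ⟨n, hn⟩ := exists_nat_gt (C / κ)
    refine ⟨n + 1, by omega, ?_⟩
    rw [div_lt_iff₀ hκ] at hn
    push_cast
    nlinarith
  refine ⟨ε₀, hε₀, hfin, hA, fun hnt => ?_, ?_⟩
  · obtain ⟨φ, q, hφ, hq, h1, -⟩ := hB hnt
    exact ⟨φ, q, hφ, hq, h1⟩
  · tfae_have 1 → 2 := by
      intro ht φ hφ s hs hsε
      obtain ⟨K, -, C, -, h1⟩ := hA ht φ hφ s hs hsε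
      exact ⟨C, fun n => (h1 n).1.1⟩
    tfae_have 1 → 3 := by
      intro ht φ hφ s hs hsε
      obtain ⟨K, -, C, hC, h1⟩ := hA ht φ hφ s hs hsε
      refine ⟨C * C, K, fun n => ?_⟩
      calc sepSum F φ s n ≤ C * Real.exp (n * pressure F φ) := (h1 n).1.1
        _ ≤ C * (C * ∑ m ∈ Finset.Icc 1 K, perSum F φ (n + m)) :=
          mul_le_mul_of_nonneg_left (h1 n).2.2 hC.le
        _ = _ := by ring
    tfae_have 2 → 4 := by
      intro h2 φ hφ
      obtain ⟨C, h3⟩ := h2 φ hφ ε₀ hε₀ le_rfl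
      refine ⟨ε₀, ε₀, hs0, fun κ hκ => ?_⟩
      obtain ⟨n, hn1, hn⟩ := hlin C κ hκ
      refine ⟨n, hn1, fun x => (hgrow φ _ _ n x hφ hε₀).trans ((h3 n).trans ?_)⟩
      exact mul_le_mul_of_nonneg_right hn (Real.exp_pos _).le
    tfae_have 3 → 5 := by
      intro h2 φ hφ
      obtain ⟨C, K, h3⟩ := h2 φ hφ ε₀ hε₀ le_rfl
      refine ⟨ε₀, ε₀, K, hs0, fun κ hκ => ?_⟩
      obtain ⟨n, hn1, hn⟩ := hlin C κ hκ
      refine ⟨n, hn1, fun x => (hgrow φ _ _ n x hφ hε₀).trans ((h3 n).trans ?_)⟩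
      exact mul_le_mul_of_nonneg_right hn (hsumnn φ n K)
    tfae_have 4 → 1 := by
      intro h4
      by_contra hnt
      obtain ⟨φ, q, hφ, -, h1, -⟩ := hB hnt
      obtain ⟨r, s, hs, h2⟩ := h4 φ hφ
      obtain ⟨K, -, C, hC, h3⟩ := h1 r s hs
      obtain ⟨n, hn, h5⟩ := h2 (1 / C) (by positivity)
      have h6 := (h3 n).2.1.2
      have h7 := h5 q
      have h8 := Real.exp_pos (n * pressure F φ)
      have h9 : ((n : ℝ) + 1) * Real.exp (n * pressure F φ) ≤
          n * Real.exp (n * pressure F φ) := by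
        calc ((n : ℝ) + 1) * Real.exp (n * pressure F φ) ≤ C * growth F φ r s n q := h6
          _ ≤ C * (1 / C * n * Real.exp (n * pressure F φ)) :=
            mul_le_mul_of_nonneg_left h7 hC.le
          _ = _ := by field_simp
      nlinarith
    tfae_have 5 → 1 := by
      intro h4
      by_contra hnt
      obtain ⟨φ, q, hφ, -, h1, h1'⟩ := hB hnt
      obtain ⟨r, s, K', hs, h2⟩ := h4 φ hφ
      obtain ⟨K, -, C, hC, h3⟩ := h1 r s hs
      obtain ⟨D, hD, h3'⟩ := h1' K'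
      obtain ⟨n, hn, h5⟩ := h2 (1 / (C * D)) (by positivity)
      have h6 := (h3 n).2.1.2
      have h7 := h5 q
      have h8 := Real.exp_pos (n * pressure F φ)
      have h10 := h3' n
      have h9 : ((n : ℝ) + 1) * Real.exp (n * pressure F φ) ≤
          n * Real.exp (n * pressure F φ) := by
        calc ((n : ℝ) + 1) * Real.exp (n * pressure F φ) ≤ C * growth F φ r s n q := h6
          _ ≤ C * (1 / (C * D) * n * ∑ m ∈ Finset.Icc 1 K', perSum F φ (n + m)) :=
            mul_le_mul_of_nonneg_left h7 hC.le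
          _ ≤ C * (1 / (C * D) * n * (D * Real.exp (n * pressure F φ))) := by
            gcongr
          _ = _ := by field_simp
      nlinarith
    tfae_finish

end Pool.Agent.Results.MP_610fe3_an.PressureGapH52
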